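import Pool.Agent.H81.SC.Bas

/-!
# Fitting's theorem and local nilpotency
-/

namespace H81.SC.Fit

open Subgroup
open scoped commutatorElement

variable {G : Type*} [Group G]

/-- `γ` shifted: `⊤, S, γ₂ S, ...` -/
def gam (S : Subgroup G) : ℕ → Subgroup G
  | 0 => ⊤
  | n + 1 => S.lowerCentralSeries n

instance gam_normal (S : Subgroup G) [S.Normal] (n : ℕ) : (gam S n).Normal := by
  cases n with
  | zero => unfold gam; infer_instance
  | succ n => unfold gam; infer_instance

theorem gam_comm (S : Subgroup G) [S.Normal] (n : ℕ) : ⁅gam S n, S⁆ ≤ gam S (n + 1) := by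
  cases n with
  | zero => exact Subgroup.commutator_le_right _ _
  | succ n => exact le_of_eq (Subgroup.lowerCentralSeries_succ S n).symm

/-- the Fitting filtration -/
def D (A B : Subgroup G) (n : ℕ) : Subgroup G :=
  ⨆ k : Fin (n + 1), gam A (k : ℕ) ⊓ gam B (n - (k : ℕ))

theorem D_le (A B : Subgroup G) {i j n : ℕ} (h : i + j = n) : gam A i ⊓ gam B j ≤ D A B n := by
  unfold D
  have hi : i < n + 1 := by omega
  have hj : n - i = j := by omega
  refine le_trans ?_ (le_iSup _ (⟨i, hi⟩ : Fin (n + 1)))
  simp only [hj]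
  exact le_rfl

instance D_normal (A B : Subgroup G) [A.Normal] [B.Normal] (n : ℕ) : (D A B n).Normal := by
  unfold D
  infer_instance

theorem D_comm (A B : Subgroup G) [A.Normal] [B.Normal] (n : ℕ) :
    ⁅D A B n, A ⊔ B⁆ ≤ D A B (n + 1) := by
  rw [Subgroup.commutator_comm, Subgroup.commutator_le]
  -- elements `y` of `A ⊔ B` against elements of `D`
  have key : D A B n ≤ Subgroup.comap (QuotientGroup.mk' (D A B (n + 1)))
      (Subgroup.centralizer (Subgroup.map (QuotientGroup.mk' (D A B (n + 1))) (A ⊔ B) : Set _)) := by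
    unfold D
    rw [iSup_le_iff]
    intro k x hx
    rw [Subgroup.mem_comap, Subgroup.mem_centralizer_iff]
    have h1 : ∀ y ∈ A ⊔ B, Commute (QuotientGroup.mk' (D A B (n + 1)) y)
        (QuotientGroup.mk' (D A B (n + 1)) x) := by
      have h2 : A ⊔ B ≤ Subgroup.comap (QuotientGroup.mk' (D A B (n + 1)))
          (Subgroup.centralizer {QuotientGroup.mk' (D A B (n + 1)) x}) := by
        rw [sup_le_iff]
        have hmem : ∀ y, ⁅x, y⁆ ∈ D A B (n + 1) →
            y ∈ Subgroup.comap (QuotientGroup.mk' (D A B (n + 1)))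
              (Subgroup.centralizer {QuotientGroup.mk' (D A B (n + 1)) x}) := by
          intro y hy
          rw [Subgroup.mem_comap, Subgroup.mem_centralizer_iff]
          rintro _ rfl
          have h3 : QuotientGroup.mk' (D A B (n + 1)) ⁅x, y⁆ = 1 :=
            (QuotientGroup.eq_one_iff _).2 hy
          rw [map_commutatorElement] at h3
          exact commutatorElement_eq_one_iff_mul_comm.1 h3
        constructor
        · intro y hy
          apply hmem
          refine D_le A B (i := (k : ℕ) + 1) (j := n - (k : ℕ)) (by omega) ⟨?_, ?_⟩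
          · exact gam_comm A k (Subgroup.commutator_mem_commutator hx.1 hy)
          · exact Subgroup.commutator_le_left _ _
              (Subgroup.commutator_mem_commutator hx.2 (Subgroup.mem_top y))
        · intro y hy
          apply hmem
          refine D_le A B (i := (k : ℕ)) (j := n - (k : ℕ) + 1) (by omega) ⟨?_, ?_⟩
          · exact Subgroup.commutator_le_left _ _
              (Subgroup.commutator_mem_commutator hx.1 (Subgroup.mem_top y))
          · exact gam_comm B _ (Subgroup.commutator_mem_commutator hx.2 hy)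
      intro y hy
      have := h2 hy
      rw [Subgroup.mem_comap, Subgroup.mem_centralizer_iff] at this
      exact (this _ rfl).symm
    rintro _ ⟨y, hy, rfl⟩
    exact (h1 y hy).eq
  intro y hy x hx
  have h1 := key hx
  rw [Subgroup.mem_comap, Subgroup.mem_centralizer_iff] at h1
  have h2 := h1 _ ⟨y, hy, rfl⟩
  have h3 : QuotientGroup.mk' (D A B (n + 1)) ⁅y, x⁆ = 1 := by
    rw [map_commutatorElement]
    exact commutatorElement_eq_one_iff_mul_comm.2 h2
  exact (QuotientGroup.eq_one_iff _).1 h3

theorem lcs_le (A B : Subgroup G) [A.Normal] [B.Normal] (n : ℕ) :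
    (A ⊔ B).lowerCentralSeries n ≤ D A B (n + 1) := by
  induction n with
  | zero =>
    rw [Subgroup.lowerCentralSeries_zero, sup_le_iff]
    constructor
    · refine le_trans ?_ (D_le A B (i := 1) (j := 0) rfl)
      exact le_inf le_rfl le_top
    · refine le_trans ?_ (D_le A B (i := 0) (j := 1) rfl)
      exact le_inf le_top le_rfl
  | succ n ih =>
    rw [Subgroup.lowerCentralSeries_succ]
    exact le_trans (Subgroup.commutator_mono ih le_rfl) (D_comm A B (n + 1))

theorem fitting (A B : Subgroup G) [A.Normal] [B.Normal] {a b : ℕ}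
    (ha : A.lowerCentralSeries a = ⊥) (hb : B.lowerCentralSeries b = ⊥) :
    (A ⊔ B).lowerCentralSeries (a + b) = ⊥ := by
  rw [eq_bot_iff]
  refine le_trans (lcs_le A B (a + b)) ?_
  unfold D
  rw [iSup_le_iff]
  intro k
  by_cases h : (k : ℕ) ≤ a
  · have h1 : ∃ m, a + b + 1 - (k : ℕ) = m + 1 ∧ b ≤ m := ⟨a + b - k, by omega, by omega⟩
    obtain ⟨m, hm, hbm⟩ := h1
    rw [hm]
    refine le_trans inf_le_right ?_
    show B.lowerCentralSeries m ≤ ⊥
    rw [← hb]
    exact Subgroup.lowerCentralSeries_antitone B hbm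
  · obtain ⟨m, hm⟩ : ∃ m, (k : ℕ) = m + 1 := ⟨(k : ℕ) - 1, by omega⟩
    refine le_trans inf_le_left ?_
    rw [hm]
    show A.lowerCentralSeries m ≤ ⊥
    rw [← ha]
    exact Subgroup.lowerCentralSeries_antitone A (by omega)

/-- if all normal closures of elements are nilpotent then the group is locally nilpotent -/
theorem locnil {c : ℕ} (h : ∀ x : G, (Subgroup.normalClosure {x}).lowerCentralSeries c = ⊥)
    (H : Subgroup G) (hH : H.FG) : Group.IsNilpotent H := by
  obtain ⟨S, hS⟩ := hH
  have key : ∀ T : Finset G, ∃ K : Subgroup G, K.Normal ∧ (T : Set G) ⊆ K ∧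
      ∃ n, K.lowerCentralSeries n = ⊥ := by
    classical
    intro T
    induction T using Finset.induction_on with
    | empty =>
      refine ⟨⊥, inferInstance, by simp, 0, ?_⟩
      exact Subgroup.lowerCentralSeries_zero _
    | insert x T _ ih =>
      obtain ⟨K, hK, hTK, n, hn⟩ := ih
      refine ⟨K ⊔ Subgroup.normalClosure {x}, inferInstance, ?_, n + c, fitting _ _ hn (h x)⟩
      intro y hy
      rw [Finset.coe_insert, Set.mem_insert_iff] at hy
      rcases hy with rfl | hy
      · exact (le_sup_right : _ ≤ K ⊔ Subgroup.normalClosure {y})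
          (Subgroup.subset_normalClosure rfl)
      · exact (le_sup_left : K ≤ K ⊔ Subgroup.normalClosure {x}) (hTK hy)
  obtain ⟨K, hK, hSK, n, hn⟩ := key S
  have hHK : H ≤ K := by rw [← hS, Subgroup.closure_le]; exact hSK
  apply Subgroup.isNilpotent_of_lowerCentralSeries_eq_bot (n := n)
  rw [eq_bot_iff, ← hn]
  induction n with
  | zero => exact hHK
  | succ n ih => exact Subgroup.lowerCentralSeries_mono _ hHK

end H81.SC.Fit
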