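import Pool.Agent.H81.SC.Gam
import Pool.Agent.H81.SC.Fit

/-!
# Normal closures of elements
-/

namespace H81.SC

open scoped commutatorElement

variable {G : Type*} [Group G]

theorem ncl {x : G} (h : ∀ g y h : G, Commute (cm (cm x (cj x g)) y) (cj x h)) :
    (Subgroup.normalClosure {x}).lowerCentralSeries 3 = ⊥ := by
  set S := Subgroup.normalClosure {x} with hS
  set C := Subgroup.centralizer (S : Set G) with hC
  have hCn : C.Normal := inferInstance
  set K := Subgroup.comap (QuotientGroup.mk' C) (Subgroup.center (G ⧸ C)) with hK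
  have hKn : K.Normal := inferInstance
  have conjS : ∀ y ∈ Group.conjugatesOfSet ({x} : Set G), ∃ g, y = cj x g := by
    intro y hy
    rw [Group.mem_conjugatesOfSet_iff] at hy
    obtain ⟨a, ha, hy⟩ := hy
    rw [Set.mem_singleton_iff] at ha
    subst ha
    obtain ⟨c, hc⟩ := isConj_iff.1 hy
    exact ⟨c⁻¹, by rw [← hc]; unfold cj; group⟩
  have memC : ∀ d, (∀ h, Commute d (cj x h)) → d ∈ C := by
    intro d hd
    have h1 : S ≤ Subgroup.centralizer {d} := by
      rw [hS]
      unfold Subgroup.normalClosure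
      rw [Subgroup.closure_le]
      intro y hy
      obtain ⟨g, rfl⟩ := conjS y hy
      rw [SetLike.mem_coe, Subgroup.mem_centralizer_iff]
      rintro _ rfl
      exact (hd g).eq
    rw [hC, Subgroup.mem_centralizer_iff]
    intro y hy
    have := h1 hy
    rw [Subgroup.mem_centralizer_iff] at this
    exact (this d rfl).symm
  have memK : ∀ d, (∀ y, cm d y ∈ C) → d ∈ K := by
    intro d hd
    rw [hK, Subgroup.mem_comap, Subgroup.mem_center_iff]
    intro y
    obtain ⟨y, rfl⟩ := QuotientGroup.mk'_surjective C y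
    have h1 : QuotientGroup.mk' C (cm d y) = 1 := (QuotientGroup.eq_one_iff _).2 (hd y)
    rw [map_cm] at h1
    exact (cm_eq_one_iff.1 h1).symm.eq
  have K1 : ∀ g, cm x (cj x g) ∈ K := fun g => memK _ fun y => memC _ fun k => h g y k
  have K2 : ∀ g k, cm (cj x g) (cj x k) ∈ K := by
    intro g k
    have e : cm (cj x g) (cj x k) = cj (cm x (cj x (k * g⁻¹))) g := by
      rw [cj_cm, cj_cj]; congr 2; group
    rw [e]
    have := hKn.conj_mem _ (K1 (k * g⁻¹)) g⁻¹
    simpa [cj] using this
  have comm2 : ∀ a ∈ S, ∀ b ∈ S, Commute (QuotientGroup.mk' K a) (QuotientGroup.mk' K b) := by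
    have step : ∀ g, ∀ b ∈ S, Commute (QuotientGroup.mk' K (cj x g)) (QuotientGroup.mk' K b) := by
      intro g b hb
      have h1 : S ≤ Subgroup.comap (QuotientGroup.mk' K)
          (Subgroup.centralizer {QuotientGroup.mk' K (cj x g)}) := by
        rw [hS]
        unfold Subgroup.normalClosure
        rw [Subgroup.closure_le]
        intro y hy
        obtain ⟨k, rfl⟩ := conjS y hy
        rw [SetLike.mem_coe, Subgroup.mem_comap, Subgroup.mem_centralizer_iff]
        rintro _ rfl
        have h2 : QuotientGroup.mk' K (cm (cj x g) (cj x k)) = 1 :=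
          (QuotientGroup.eq_one_iff _).2 (K2 g k)
        rw [map_cm] at h2
        exact (cm_eq_one_iff.1 h2).eq
      have h2 := h1 hb
      rw [Subgroup.mem_comap, Subgroup.mem_centralizer_iff] at h2
      exact h2 _ rfl
    intro a ha b hb
    have h1 : S ≤ Subgroup.comap (QuotientGroup.mk' K)
        (Subgroup.centralizer {QuotientGroup.mk' K b}) := by
      rw [hS]
      unfold Subgroup.normalClosure
      rw [Subgroup.closure_le]
      intro y hy
      obtain ⟨k, rfl⟩ := conjS y hy
      rw [SetLike.mem_coe, Subgroup.mem_comap, Subgroup.mem_centralizer_iff]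
      rintro _ rfl
      exact (step k b hb).symm.eq
    have h2 := h1 ha
    rw [Subgroup.mem_comap, Subgroup.mem_centralizer_iff] at h2
    exact (h2 _ rfl).symm
  have l1 : ⁅S, S⁆ ≤ K := by
    rw [Subgroup.commutator_le]
    intro a ha b hb
    apply (QuotientGroup.eq_one_iff _).1
    show QuotientGroup.mk' K ⁅a, b⁆ = 1
    rw [map_commutatorElement]
    exact commutatorElement_eq_one_iff_commute.2 (comm2 a ha b hb)
  have l2 : ⁅⁅S, S⁆, S⁆ ≤ C := by
    rw [Subgroup.commutator_le]
    intro d hd y _
    have h1 := l1 hd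
    rw [hK, Subgroup.mem_comap, Subgroup.mem_center_iff] at h1
    apply (QuotientGroup.eq_one_iff _).1
    show QuotientGroup.mk' C ⁅d, y⁆ = 1
    rw [map_commutatorElement]
    exact commutatorElement_eq_one_iff_mul_comm.2 (h1 _).symm
  show ⁅⁅⁅S, S⁆, S⁆, S⁆ = ⊥
  rw [Subgroup.commutator_eq_bot_iff_le_centralizer]
  exact l2

end H81.SC
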