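import Pool.Agent.H81.SC.Fin

/-!
# From a splitting automorphism to the environment
-/

namespace H81.SC

/-- a finitely generated nilpotent torsion group is finite -/
theorem finite_of_nilpotent (H : Type*) [Group H] [Group.IsNilpotent H] :
    Group.FG H → (∀ h : H, IsOfFinOrder h) → Finite H := by
  refine Group.nilpotent_center_quotient_ind
    (P := fun H _ _ => Group.FG H → (∀ h : H, IsOfFinOrder h) → Finite H) H ?_ ?_
  · intro G _ _ _ _; infer_instance
  · intro G _ _ ih hfg ht
    have h1 : Finite (G ⧸ Subgroup.center G) := by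
      apply ih
      · exact QuotientGroup.fg _
      · intro h
        obtain ⟨g, rfl⟩ := QuotientGroup.mk_surjective h
        exact MonoidHom.isOfFinOrder (QuotientGroup.mk' (Subgroup.center G)) (ht g)
    have h2 : (Subgroup.center G).FiniteIndex := Subgroup.finiteIndex_of_finite_quotient
    have h3 : Group.FG (Subgroup.center G) := Subgroup.fg_of_index_ne_zero _
    have h4 : Finite (Subgroup.center G) := by
      let ci : CommGroup (Subgroup.center G) :=
        { (inferInstance : Group (Subgroup.center G)) with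
          mul_comm := fun a b => Subtype.ext (b.2.comm a).symm }
      refine @CommGroup.finite_of_fg_isMulTorsion (Subgroup.center G) ci h3 ?_
      intro g
      obtain ⟨n, hn, h⟩ := isOfFinOrder_iff_pow_eq_one.1 (ht g)
      exact isOfFinOrder_iff_pow_eq_one.2 ⟨n, hn, Subtype.ext (by simpa using h)⟩
    exact Finite.of_subgroup_quotient (Subgroup.center G)

variable {G : Type*} [Group G]

theorem ord_ne {p : ℕ} (hp : p.Prime) {g : G} (hg : Nat.Coprime (orderOf g) p) :
    IsOfFinOrder g := by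
  rw [← orderOf_pos_iff]
  rcases Nat.eq_zero_or_pos (orderOf g) with h | h
  · rw [h, Nat.coprime_zero_left] at hg
    exact absurd hg hp.one_lt.ne'
  · exact h

theorem eq_one_of_pow {p : ℕ} {g : G} (hg : Nat.Coprime (orderOf g) p) (h : g ^ p = 1) :
    g = 1 := by
  have h1 : orderOf g ∣ p := orderOf_dvd_of_pow_eq_one h
  have h2 : orderOf g = 1 := Nat.eq_one_of_dvd_coprimes hg dvd_rfl h1
  exact orderOf_eq_one_iff.1 h2

/-- a power of `φ` without trivial power has no fixed points -/
theorem fix {p : ℕ} (hp : p.Prime) (hG : ∀ g : G, Nat.Coprime (orderOf g) p) {φ : MulAut G}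
    (hφ : φ ^ p = 1)
    (hs : ∀ g : G, ((List.range p).map (fun i => (φ ^ i) g)).prod = 1) {i : ℕ}
    (hi : ¬ p ∣ i) {y : G} (hy : (φ ^ i) y = y) : y = 1 := by
  -- `φ` is a power of `φ ^ i`
  have hcop : Nat.Coprime i p := (Nat.coprime_comm.1 ((Nat.Prime.coprime_iff_not_dvd hp).2 hi))
  have h1 : ∀ k : ℕ, ((φ ^ i) ^ k) y = y := by
    intro k
    induction k with
    | zero => simp
    | succ k ih => rw [pow_succ', MulAut.mul_apply, ih, hy]
  have hord : orderOf φ ∣ p := orderOf_dvd_of_pow_eq_one hφ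
  obtain ⟨m, hm⟩ := exists_pow_eq_self_of_coprime (x := φ) (n := i)
    (Nat.Coprime.coprime_dvd_right hord hcop)
  have h2 : φ y = y := by
    have := h1 m
    rwa [hm] at this
  have h3 : ∀ k : ℕ, (φ ^ k) y = y := by
    intro k
    induction k with
    | zero => simp
    | succ k ih => rw [pow_succ', MulAut.mul_apply, ih, h2]
  have h4 := hs y
  rw [List.map_congr_left (g := fun _ => y) (fun k _ => h3 k), List.map_const',
    List.prod_replicate, List.length_range] at h4
  exact eq_one_of_pow (hG y) h4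

/-- the Lang map is surjective -/
theorem lang {p : ℕ} (hp : p.Prime) (hG : ∀ g : G, Nat.Coprime (orderOf g) p) {φ : MulAut G}
    (hφ : φ ^ p = 1)
    (hs : ∀ g : G, ((List.range p).map (fun i => (φ ^ i) g)).prod = 1)
    (hn : ∀ g : G, Group.IsNilpotent
      (Subgroup.closure (Set.range (fun i : Fin p => (φ ^ (i : ℕ)) g)))) {i : ℕ}
    (hi : ¬ p ∣ i) (g : G) : ∃ h : G, g = h * ((φ ^ i) h)⁻¹ := by
  set H := Subgroup.closure (Set.range (fun i : Fin p => (φ ^ (i : ℕ)) g)) with hH
  have hgH : g ∈ H := Subgroup.subset_closure ⟨⟨0, hp.pos⟩, by simp⟩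
  have hφH : ∀ h ∈ H, φ h ∈ H := by
    intro h hh
    have h1 : H ≤ H.comap φ.toMonoidHom := by
      rw [hH, Subgroup.closure_le]
      rintro _ ⟨k, rfl⟩
      show φ ((φ ^ (k : ℕ)) g) ∈ H
      rw [← MulAut.mul_apply, ← pow_succ']
      by_cases hk : (k : ℕ) + 1 < p
      · exact Subgroup.subset_closure ⟨⟨(k : ℕ) + 1, hk⟩, rfl⟩
      · have hk2 : (k : ℕ) + 1 = p := by omega
        rw [hk2, hφ]
        exact hgH
    exact h1 hh
  have hφi : ∀ k : ℕ, ∀ h ∈ H, (φ ^ k) h ∈ H := by
    intro k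
    induction k with
    | zero => intro h hh; simpa using hh
    | succ k ih =>
      intro h hh
      rw [pow_succ', MulAut.mul_apply]
      exact hφH _ (ih h hh)
  have hfin : Finite H := by
    have := hn g
    rw [← hH] at this
    apply finite_of_nilpotent
    · rw [Group.fg_iff_subgroup_fg]
      exact (Subgroup.fg_iff _).2 ⟨_, hH.symm, Set.finite_range _⟩
    · intro h
      obtain ⟨n, hn, h'⟩ := isOfFinOrder_iff_pow_eq_one.1 (ord_ne hp (hG (h : G)))
      exact isOfFinOrder_iff_pow_eq_one.2 ⟨n, hn, Subtype.ext (by simpa using h')⟩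
  let f : H → H := fun h => ⟨h * ((φ ^ i) h)⁻¹, H.mul_mem h.2 (H.inv_mem (hφi i _ h.2))⟩
  have hinj : Function.Injective f := by
    intro h k hk
    have h1 : (h : G) * ((φ ^ i) h)⁻¹ = k * ((φ ^ i) k)⁻¹ := congrArg Subtype.val hk
    have h2 : (φ ^ i) ((k : G)⁻¹ * h) = (k : G)⁻¹ * h := by
      rw [map_mul, map_inv]
      have h3 : (h : G) = k * ((φ ^ i) k)⁻¹ * (φ ^ i) h := by rw [← h1]; group
      calc ((φ ^ i) (k : G))⁻¹ * (φ ^ i) h = (k : G)⁻¹ * (k * ((φ ^ i) k)⁻¹ * (φ ^ i) h) := by
            group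
        _ = (k : G)⁻¹ * h := by rw [← h3]
    have h3 := fix hp hG hφ hs hi h2
    exact Subtype.ext (inv_mul_eq_one.1 h3).symm
  obtain ⟨h, hh⟩ := (Finite.injective_iff_surjective.1 hinj) ⟨g, hgH⟩
  exact ⟨h, (congrArg Subtype.val hh).symm⟩

/-- The group `Γ`. -/
abbrev Ga (φ : MulAut G) := G ⋊[(Subgroup.zpowers φ).subtype] (Subgroup.zpowers φ)

theorem map_cm {Γ Δ : Type*} [Group Γ] [Group Δ] (f : Γ →* Δ) (x y : Γ) :
    f (cm x y) = cm (f x) (f y) := by
  unfold cm; simp

theorem map_cj {Γ Δ : Type*} [Group Γ] [Group Δ] (f : Γ →* Δ) (x y : Γ) :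
    f (cj x y) = cj (f x) (f y) := by
  unfold cj; simp

end H81.SC
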