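import Mathlib

/-!
# Commutator calculus with right conventions
-/

namespace H81.SC

variable {Γ : Type*} [Group Γ]

/-- right commutator `x⁻¹ y⁻¹ x y` -/
def cm (x y : Γ) : Γ := x⁻¹ * y⁻¹ * x * y

/-- right conjugate `u⁻¹ x u` -/
def cj (x u : Γ) : Γ := u⁻¹ * x * u

theorem cj_mul (x y u : Γ) : cj (x * y) u = cj x u * cj y u := by
  unfold cj; group

theorem cj_inv (x u : Γ) : cj x⁻¹ u = (cj x u)⁻¹ := by
  unfold cj; group

theorem cj_cj (x u v : Γ) : cj (cj x u) v = cj x (u * v) := by
  unfold cj; group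

theorem cj_one (x : Γ) : cj x 1 = x := by
  unfold cj; group

theorem cj_cj_inv (x u : Γ) : cj (cj x u) u⁻¹ = x := by
  unfold cj; group

theorem cj_inv_cj (x u : Γ) : cj (cj x u⁻¹) u = x := by
  unfold cj; group

theorem cj_cm (x y u : Γ) : cj (cm x y) u = cm (cj x u) (cj y u) := by
  unfold cj cm; group

theorem cm_eq (x y : Γ) : cm x y = x⁻¹ * cj x y := by
  unfold cj cm; group

theorem cm_eq' (x y : Γ) : cm x y = (cj y x)⁻¹ * y := by
  unfold cj cm; group

theorem cj_eq (x y : Γ) : cj x y = x * cm x y := by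
  unfold cj cm; group

theorem cm_inv (x y : Γ) : (cm x y)⁻¹ = cm y x := by
  unfold cm; group

theorem cm_mul_left (x y z : Γ) : cm (x * y) z = cj (cm x z) y * cm y z := by
  unfold cj cm; group

theorem cm_mul_right (x y z : Γ) : cm x (y * z) = cm x z * cj (cm x y) z := by
  unfold cj cm; group

theorem cj_of {x u : Γ} (h : Commute x u) : cj x u = x := by
  unfold cj
  rw [mul_assoc, h.eq, inv_mul_cancel_left]

theorem cj_eq_iff {x u : Γ} : cj x u = x ↔ Commute x u := by
  constructor
  · intro h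
    have h2 : u * (u⁻¹ * x * u) = u * x := by
      have := congrArg (fun t => u * t) h
      simpa [cj] using this
    have h3 : u * (u⁻¹ * x * u) = x * u := by group
    exact (h3.symm.trans h2)
  · exact cj_of

theorem cm_eq_one_iff {x y : Γ} : cm x y = 1 ↔ Commute x y := by
  rw [cm_eq, inv_mul_eq_one, eq_comm, cj_eq_iff]

theorem cm_of {x y : Γ} (h : Commute x y) : cm x y = 1 := cm_eq_one_iff.2 h

theorem comm_cj {x y : Γ} (h : Commute x y) (u : Γ) : Commute (cj x u) (cj y u) := by
  show cj x u * cj y u = cj y u * cj x u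
  rw [← cj_mul, ← cj_mul, h.eq]

theorem comm_cj_iff {x y u : Γ} : Commute (cj x u) (cj y u) ↔ Commute x y := by
  constructor
  · intro h
    have := comm_cj h u⁻¹
    rwa [cj_cj_inv, cj_cj_inv] at this
  · intro h
    exact comm_cj h u

theorem comm_cj_left {x y u : Γ} : Commute (cj x u) y ↔ Commute x (cj y u⁻¹) := by
  constructor
  · intro h
    have := comm_cj h u⁻¹
    rwa [cj_cj_inv] at this
  · intro h
    have := comm_cj h u
    rwa [cj_inv_cj] at this

/-- `g` commutes with `cm x y` if it commutes with both. -/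
theorem comm_cm {g x y : Γ} (hx : Commute g x) (hy : Commute g y) : Commute g (cm x y) := by
  unfold cm
  exact ((hx.inv_right.mul_right hy.inv_right).mul_right hx).mul_right hy

theorem cm_comm {g x y : Γ} (hx : Commute x g) (hy : Commute y g) : Commute (cm x y) g :=
  (comm_cm hx.symm hy.symm).symm

/-- if `cm x y` commutes with `x`, then `x` commutes with `cj x y` -/
theorem comm_cj_self {x y : Γ} (h : Commute (cm x y) x) : Commute x (cj x y) := by
  rw [cj_eq]
  exact (Commute.refl x).mul_right h.symm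

theorem cm_self_of {x y : Γ} (h : Commute x (cj x y)) : Commute (cm x y) x := by
  rw [cm_eq]
  exact (((Commute.refl x).inv_right).mul_right h).symm

/-- `cm x y⁻¹ = (cm x y)⁻¹` when `cm x y` commutes with `y`. -/
theorem cm_inv_right {x y : Γ} (h : Commute (cm x y) y) : cm x y⁻¹ = (cm x y)⁻¹ := by
  have h1 : cm x y⁻¹ = cj (cm x y)⁻¹ y⁻¹ := by unfold cm cj; group
  rw [h1]
  exact cj_of h.inv_left.inv_right

theorem cm_inv_left {x y : Γ} (h : Commute (cm x y) x) : cm x⁻¹ y = (cm x y)⁻¹ := by
  have h1 : cm x⁻¹ y = cj (cm x y)⁻¹ x⁻¹ := by unfold cm cj; group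
  rw [h1]
  exact cj_of h.inv_left.inv_right

/-- conjugation by `y` in terms of the commutator, when `cm x y` commutes with `y` -/
theorem cj_inv_of {x y : Γ} (h : Commute (cm x y) y) : cj x y⁻¹ = x * (cm x y)⁻¹ := by
  rw [cj_eq, cm_inv_right h]

end H81.SC
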