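import Pool.Agent.H81.SC.Tc

/-!
# The environment: cross pairs
-/

namespace H81.SC

variable {Γ : Type*} [Group Γ]

/-- `N` is a normal subgroup such that `⟨x, x^u⟩` has class at most two for `x ∈ N`, `u ∉ N`. -/
structure Env (N : Subgroup Γ) : Prop where
  normal : N.Normal
  law : ∀ x ∈ N, ∀ u, u ∉ N → Commute (cm x (cj x u)) x
  sq : ∀ x ∈ N, x * x = 1 → x = 1
  sqc : ∀ x ∈ N, ∀ y, Commute (x * x) y → Commute x y

/-- `y` is a conjugate of `x` or of `x⁻¹` by an element outside `N`. -/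
def Cr (N : Subgroup Γ) (x y : Γ) : Prop := ∃ u, u ∉ N ∧ (y = cj x u ∨ y = (cj x u)⁻¹)

variable {N : Subgroup Γ}

theorem Cr.symm {x y : Γ} (h : Cr N x y) : Cr N y x := by
  obtain ⟨u, hu, h | h⟩ := h
  · exact ⟨u⁻¹, fun h1 => hu (by simpa using N.inv_mem h1), Or.inl (by rw [h, cj_cj_inv])⟩
  · exact ⟨u⁻¹, fun h1 => hu (by simpa using N.inv_mem h1),
      Or.inr (by rw [h, cj_inv, cj_cj_inv, inv_inv])⟩

theorem Cr.inv_right {x y : Γ} (h : Cr N x y) : Cr N x y⁻¹ := by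
  obtain ⟨u, hu, h | h⟩ := h
  · exact ⟨u, hu, Or.inr (by rw [h])⟩
  · exact ⟨u, hu, Or.inl (by rw [h, inv_inv])⟩

theorem Cr.inv_left {x y : Γ} (h : Cr N x y) : Cr N x⁻¹ y := (h.symm.inv_right).symm

theorem Cr.cj_right {x y g : Γ} (hg : g ∈ N) (h : Cr N x y) : Cr N x (cj y g) := by
  obtain ⟨u, hu, h | h⟩ := h
  · exact ⟨u * g, fun h1 => hu ((N.mul_mem_cancel_right hg).1 h1), Or.inl (by rw [h, cj_cj])⟩
  · exact ⟨u * g, fun h1 => hu ((N.mul_mem_cancel_right hg).1 h1),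
      Or.inr (by rw [h, cj_inv, cj_cj])⟩

theorem Cr.cj_left {x y g : Γ} (hg : g ∈ N) (h : Cr N x y) : Cr N (cj x g) y :=
  (h.symm.cj_right hg).symm

theorem cj_mem (hN : N.Normal) {x : Γ} (hx : x ∈ N) (u : Γ) : cj x u ∈ N := by
  have := hN.conj_mem x hx u⁻¹
  simpa [cj] using this

theorem cm_mem {x y : Γ} (hx : x ∈ N) (hy : y ∈ N) : cm x y ∈ N := by
  unfold cm
  exact N.mul_mem (N.mul_mem (N.mul_mem (N.inv_mem hx) (N.inv_mem hy)) hx) hy

theorem Cr.mem (hN : N.Normal) {x y : Γ} (hx : x ∈ N) (h : Cr N x y) : y ∈ N := by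
  obtain ⟨u, _, h | h⟩ := h
  · rw [h]; exact cj_mem hN hx u
  · rw [h]; exact N.inv_mem (cj_mem hN hx u)

namespace Env

variable (E : Env N)
include E

theorem pair {x y : Γ} (hx : x ∈ N) (h : Cr N x y) :
    Commute (cm x y) x ∧ Commute (cm x y) y := by
  have key : ∀ u, u ∉ N → Commute (cm x (cj x u)) x ∧ Commute (cm x (cj x u)) (cj x u) := by
    intro u hu
    refine ⟨E.law x hx u hu, ?_⟩
    have := E.law (cj x u) (cj_mem E.normal hx u) u⁻¹ (fun h1 => hu (by simpa using N.inv_mem h1))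
    rw [cj_cj_inv] at this
    have h2 := this.inv_left
    rwa [cm_inv] at h2
  obtain ⟨u, hu, h | h⟩ := h
  · rw [h]; exact key u hu
  · obtain ⟨h1, h2⟩ := key u hu
    rw [h, cm_inv_right h2]
    exact ⟨h1.inv_left, h2.inv_left.inv_right⟩

/-- The fundamental lemma for genuine conjugates. -/
theorem T0 {x u v : Γ} (hx : x ∈ N) (hu : u ∉ N) (hv : v ∉ N) :
    Commute (cm x (cj x v)) (cm x (cj x u)) ∧ Commute (cm (cm x (cj x v)) (cj x u)) x ∧
      Commute (cm (cm x (cj x v)) (cj x u)) (cj x u) ∧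
      Commute (cm x (cj x v)) (cj (cm x (cj x v)) (cj x u)) := by
  set a := cj x v with ha
  set b := cj x u with hb
  have hcra : Cr N x a := ⟨v, hv, Or.inl rfl⟩
  have hcrb : Cr N x b := ⟨u, hu, Or.inl rfl⟩
  have haN : a ∈ N := cj_mem E.normal hx v
  have hbN : b ∈ N := cj_mem E.normal hx u
  obtain ⟨zx, za⟩ := E.pair hx hcra
  obtain ⟨nx, nb⟩ := E.pair hx hcrb
  have e1 : x * cm x a = cj x a := (cj_eq x a).symm
  have e2 : x * (cm x a)⁻¹ = cj x a⁻¹ := (cj_inv_of za).symm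
  have e3 : x * cm x b = cj x b := (cj_eq x b).symm
  have e4 : x * (cm x b)⁻¹ = cj x b⁻¹ := (cj_inv_of nb).symm
  apply tcore zx za nx nb
  · rw [e1]
    exact comm_cj_self (E.pair (cj_mem E.normal hx a) (hcrb.cj_left haN)).1
  · rw [e2]
    exact comm_cj_self (E.pair (cj_mem E.normal hx a⁻¹) (hcrb.cj_left (N.inv_mem haN))).1
  · rw [e3]
    exact comm_cj_self (E.pair (cj_mem E.normal hx b) (hcra.cj_left hbN)).1
  · rw [e4]
    exact comm_cj_self (E.pair (cj_mem E.normal hx b⁻¹) (hcra.cj_left (N.inv_mem hbN))).1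
  · rw [e1]
    exact (E.pair (cj_mem E.normal hx a) (hcrb.cj_left haN)).2
  · exact E.sqc _ (N.mul_mem hx (cj_mem E.normal hx b))
  · exact E.sqc _ (N.mul_mem hx (cj_mem E.normal hx a))
  · exact E.sqc _ (cm_mem (cm_mem hx haN) (cm_mem hx hbN))
  · exact E.sq _ (cm_mem (cm_mem hx haN) (cm_mem hx hbN))

/-- The fundamental lemma. -/
theorem T {x a b : Γ} (hx : x ∈ N) (ha : Cr N x a) (hb : Cr N x b) :
    Commute (cm x a) (cm x b) ∧ Commute (cm (cm x a) b) x ∧ Commute (cm (cm x a) b) b ∧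
      Commute (cm x a) (cj (cm x a) b) := by
  -- first allow inverses for `b`
  have step1 : ∀ v, v ∉ N → Commute (cm x (cj x v)) (cm x b) ∧
      Commute (cm (cm x (cj x v)) b) x ∧ Commute (cm (cm x (cj x v)) b) b ∧
      Commute (cm x (cj x v)) (cj (cm x (cj x v)) b) := by
    intro v hv
    obtain ⟨u, hu, h | h⟩ := hb
    · rw [h]; exact E.T0 hx hu hv
    · obtain ⟨h1, h2, h3, h4⟩ := E.T0 hx hu hv
      have hcr : Cr N x (cj x u) := ⟨u, hu, Or.inl rfl⟩
      rw [h, cm_inv_right (E.pair hx hcr).2, cm_inv_right h3]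
      refine ⟨h1.inv_right, h2.inv_left, h3.inv_left.inv_right, ?_⟩
      rw [cj_inv_of h3]
      exact (Commute.refl _).mul_right (cm_self_of h4).symm.inv_right
  obtain ⟨v, hv, h | h⟩ := ha
  · rw [h]; exact step1 v hv
  · obtain ⟨h1, h2, h3, h4⟩ := step1 v hv
    have hcr : Cr N x (cj x v) := ⟨v, hv, Or.inl rfl⟩
    rw [h, cm_inv_right (E.pair hx hcr).2, cm_inv_left (cm_self_of h4)]
    refine ⟨h1.inv_left, h2.inv_left, h3.inv_left, ?_⟩
    rw [cj_inv]
    exact h4.inv_left.inv_right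

end Env

end H81.SC
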