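import Pool.Agent.H81.SC.Orb
import Pool.Agent.H81.SC.Ab

/-!
# The environment in the semidirect product
-/

namespace H81.SC

variable {G : Type*} [Group G]

/-- the normal subgroup `G` of `Γ` -/
def Nn (φ : MulAut G) : Subgroup (Ga φ) := (SemidirectProduct.inl : G →* Ga φ).range

theorem mem_Nn {φ : MulAut G} {u : Ga φ} : u ∈ Nn φ ↔ u.right = 1 := by
  unfold Nn
  rw [SemidirectProduct.range_inl_eq_ker_rightHom, MonoidHom.mem_ker]
  rfl

theorem Nn_normal (φ : MulAut G) : (Nn φ).Normal := by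
  unfold Nn
  rw [SemidirectProduct.range_inl_eq_ker_rightHom]
  exact MonoidHom.normal_ker _

theorem natpow {p : ℕ} (hp : p.Prime) {φ : MulAut G} (hφ : φ ^ p = 1)
    (ψ : Subgroup.zpowers φ) : ∃ i : ℕ, (ψ : MulAut G) = φ ^ i := by
  obtain ⟨k, hk⟩ := Subgroup.mem_zpowers_iff.1 ψ.2
  have hp0 : (p : ℤ) ≠ 0 := by exact_mod_cast hp.ne_zero
  refine ⟨(k % p).toNat, ?_⟩
  have h1 : ((k % p).toNat : ℤ) = k % p := Int.toNat_of_nonneg (Int.emod_nonneg _ hp0)
  have h2 : φ ^ (p : ℤ) = 1 := by rw [zpow_natCast, hφ]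
  rw [← zpow_natCast, h1, ← hk]
  conv_lhs => rw [← Int.emod_add_mul_ediv k p]
  rw [zpow_add, zpow_mul, h2, one_zpow, mul_one]

theorem right_pow {p : ℕ} (hp : p.Prime) {φ : MulAut G} (hφ : φ ^ p = 1)
    (ψ : Subgroup.zpowers φ) : ψ ^ p = 1 := by
  obtain ⟨i, hi⟩ := natpow hp hφ ψ
  apply Subtype.ext
  rw [Subgroup.coe_pow, hi, ← pow_mul, mul_comm, pow_mul, hφ, one_pow]
  rfl

theorem natpow' {p : ℕ} (hp : p.Prime) {φ : MulAut G} (hφ : φ ^ p = 1)
    {ψ : Subgroup.zpowers φ} (hψ : ψ ≠ 1) : ∃ i : ℕ, ¬ p ∣ i ∧ (ψ : MulAut G) = φ ^ i := by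
  obtain ⟨i, hi⟩ := natpow hp hφ ψ
  refine ⟨i, ?_, hi⟩
  rintro ⟨k, rfl⟩
  apply hψ
  apply Subtype.ext
  rw [hi, pow_mul, hφ, one_pow]
  rfl

theorem conjform {p : ℕ} (hp : p.Prime) (hG : ∀ g : G, Nat.Coprime (orderOf g) p)
    {φ : MulAut G} (hφ : φ ^ p = 1)
    (hs : ∀ g : G, ((List.range p).map (fun i => (φ ^ i) g)).prod = 1)
    (hn : ∀ g : G, Group.IsNilpotent
      (Subgroup.closure (Set.range (fun i : Fin p => (φ ^ (i : ℕ)) g))))
    {u : Ga φ} (hu : u ∉ Nn φ) :
    ∃ h : G, u = SemidirectProduct.inl h * SemidirectProduct.inr u.right *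
      (SemidirectProduct.inl h)⁻¹ := by
  rw [mem_Nn] at hu
  obtain ⟨i, hi, hψ⟩ := natpow' hp hφ hu
  obtain ⟨h, hh⟩ := lang hp hG hφ hs hn hi u.left
  refine ⟨h, ?_⟩
  rw [← map_inv]
  apply SemidirectProduct.ext
  · simp only [SemidirectProduct.mul_left, SemidirectProduct.left_inl,
      SemidirectProduct.right_inl, SemidirectProduct.left_inr, SemidirectProduct.mul_right,
      SemidirectProduct.right_inr, map_one, mul_one, one_mul]
    rw [hh]
    congr 1
    show ((φ ^ i) h)⁻¹ = (u.right : MulAut G) h⁻¹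
    rw [hψ, map_inv]
  · simp

theorem env {p : ℕ} (hp : p.Prime) (hG : ∀ g : G, Nat.Coprime (orderOf g) p)
    (h6 : ∀ g : G, Nat.Coprime (orderOf g) 6)
    {φ : MulAut G} (hφ : φ ^ p = 1)
    (hs : ∀ g : G, ((List.range p).map (fun i => (φ ^ i) g)).prod = 1)
    (hn : ∀ g : G, Group.IsNilpotent
      (Subgroup.closure (Set.range (fun i : Fin p => (φ ^ (i : ℕ)) g))))
    (hc : ∀ (g : G) (i : ℕ), Commute (cm g ((φ ^ i) g)) g) :
    Env (Nn φ) where
  normal := Nn_normal φ
  law := by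
    rintro _ ⟨x, rfl⟩ u hu
    obtain ⟨h, hh⟩ := conjform hp hG hφ hs hn hu
    obtain ⟨j, hj⟩ := natpow hp hφ u.right⁻¹
    set y := cj x h with hy
    have e1 : (SemidirectProduct.inl x : Ga φ) =
        cj (SemidirectProduct.inl y) (SemidirectProduct.inl h)⁻¹ := by
      rw [hy, map_cj, cj_cj_inv]
    have e2 : cj (SemidirectProduct.inl y : Ga φ) (SemidirectProduct.inr u.right) =
        SemidirectProduct.inl ((φ ^ j) y) := by
      rw [← hj]
      unfold cj
      rw [← map_inv]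
      have := SemidirectProduct.inl_aut_inv (φ := (Subgroup.zpowers φ).subtype) u.right y
      rw [← this]
      rfl
    have e3 : cj (SemidirectProduct.inl x : Ga φ) u =
        cj (SemidirectProduct.inl ((φ ^ j) y)) (SemidirectProduct.inl h)⁻¹ := by
      rw [← e2, cj_cj]
      conv_lhs => rw [hh]
      rw [hy, map_cj, cj_cj, ← mul_assoc]
    rw [e3]
    conv_lhs => rw [e1]
    conv_rhs => rw [e1]
    rw [← cj_cm]
    apply comm_cj
    rw [← map_cm]
    exact (hc y j).map _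
  sq := by
    rintro _ ⟨x, rfl⟩ h
    have h1 : x * x = 1 := by
      apply SemidirectProduct.inl_injective (φ := (Subgroup.zpowers φ).subtype)
      rw [map_mul, map_one]; exact h
    have h2 : x = 1 := by
      apply eq_one_of_pow (p := 2) (g := x)
      · exact Nat.Coprime.coprime_dvd_right (by norm_num) (h6 x)
      · rw [pow_two]; exact h1
    rw [h2, map_one]
  sqc := by
    rintro _ ⟨x, rfl⟩ y h
    obtain ⟨m, hm⟩ := exists_pow_eq_self_of_coprime (x := x) (n := 2)
      (Nat.Coprime.symm (Nat.Coprime.coprime_dvd_right (by norm_num : 2 ∣ 6) (h6 x)))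
    rw [← map_mul, ← pow_two] at h
    have := h.pow_left m
    rwa [← map_pow, hm] at this

theorem pow_p {p : ℕ} (hp : p.Prime) (hG : ∀ g : G, Nat.Coprime (orderOf g) p)
    {φ : MulAut G} (hφ : φ ^ p = 1)
    (hs : ∀ g : G, ((List.range p).map (fun i => (φ ^ i) g)).prod = 1)
    (hn : ∀ g : G, Group.IsNilpotent
      (Subgroup.closure (Set.range (fun i : Fin p => (φ ^ (i : ℕ)) g))))
    {u : Ga φ} (hu : u ∉ Nn φ) : u ^ p = 1 := by
  obtain ⟨h, hh⟩ := conjform hp hG hφ hs hn hu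
  rw [hh, conj_pow, ← map_pow, right_pow hp hφ, map_one]
  group

theorem normrel {p : ℕ} (hp : p.Prime) (hG : ∀ g : G, Nat.Coprime (orderOf g) p)
    {φ : MulAut G} (hφ : φ ^ p = 1)
    (hs : ∀ g : G, ((List.range p).map (fun i => (φ ^ i) g)).prod = 1)
    (hn : ∀ g : G, Group.IsNilpotent
      (Subgroup.closure (Set.range (fun i : Fin p => (φ ^ (i : ℕ)) g)))) :
    ∀ x ∈ Nn φ, ∀ u, u ∉ Nn φ → ((List.range p).map (fun k => cj x (u ^ k))).prod = 1 := by
  intro x hx u hu
  have h1 : x * u⁻¹ ∉ Nn φ := fun h => not_inv_mem hu (((Nn φ).mul_mem_cancel_left hx).1 h)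
  have h2 := cj_pow_prod x u p
  rw [pow_p hp hG hφ hs hn h1, pow_p hp hG hφ hs hn (not_inv_mem hu), mul_one] at h2
  exact h2.symm

theorem powmem {p : ℕ} (hp : p.Prime) {φ : MulAut G} (hφ : φ ^ p = 1) :
    ∀ u : Ga φ, u ∉ Nn φ → ∀ k, 0 < k → k < p → u ^ k ∉ Nn φ := by
  intro u hu k hk0 hk hmem
  rw [mem_Nn] at hu hmem
  apply hu
  have h1 : u.right ^ k = 1 := by
    have h2 : (SemidirectProduct.rightHom (u ^ k)) = (SemidirectProduct.rightHom u) ^ k :=
      map_pow _ _ _
    exact h2.symm.trans hmem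
  have h2 : u.right ^ Nat.gcd k p = 1 := pow_gcd_eq_one.2 ⟨h1, right_pow hp hφ u.right⟩
  have h3 : Nat.gcd k p = 1 := (Nat.coprime_of_lt_prime hk0.ne' hk hp).symm
  rwa [h3, pow_one] at h2

/-- the first-order conclusion in `G` -/
theorem first {p : ℕ} (hp : p.Prime) (hG : ∀ g : G, Nat.Coprime (orderOf g) p)
    (h6 : ∀ g : G, Nat.Coprime (orderOf g) 6)
    {φ : MulAut G} (hφ : orderOf φ = p)
    (hs : ∀ g : G, ((List.range p).map (fun i => (φ ^ i) g)).prod = 1)
    (hn : ∀ g : G, Group.IsNilpotent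
      (Subgroup.closure (Set.range (fun i : Fin p => (φ ^ (i : ℕ)) g))))
    (hc : ∀ (g : G) (i : ℕ), Commute (cm g ((φ ^ i) g)) g) (x g y h : G) :
    Commute (cm (cm x (cj x g)) y) (cj x h) := by
  have hφp : φ ^ p = 1 := by rw [← hφ]; exact pow_orderOf_eq_one φ
  by_cases hp5 : 5 ≤ p
  · obtain ⟨q, rfl⟩ : ∃ q, p = q + 2 := ⟨p - 2, by omega⟩
    have E := env hp hG h6 hφp hs hn hc
    have hpow := powmem hp hφp
    have three : ∀ v : Ga φ, v ∉ Nn φ → v * v * v ∉ Nn φ := by
      intro v hv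
      have := hpow v hv 3 (by norm_num) (by omega)
      rwa [pow_succ, pow_two] at this
    have cube : ∀ x ∈ Nn φ, x * x * x = 1 → x = 1 := by
      rintro _ ⟨x, rfl⟩ h
      have h1 : x * x * x = 1 := by
        apply SemidirectProduct.inl_injective (φ := (Subgroup.zpowers φ).subtype)
        rw [map_mul, map_mul, map_one]; exact h
      have h2 : x = 1 := by
        apply eq_one_of_pow (p := 3) (g := x)
        · exact Nat.Coprime.coprime_dvd_right (by norm_num) (h6 x)
        · rw [pow_succ, pow_two]; exact h1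
      rw [h2, map_one]
    have hne : ∃ u : Ga φ, u ∉ Nn φ := by
      refine ⟨SemidirectProduct.inr ⟨φ, Subgroup.mem_zpowers φ⟩, fun h => ?_⟩
      rw [mem_Nn] at h
      have h1 : φ = 1 := congrArg Subtype.val h
      rw [h1, orderOf_one] at hφ
      omega
    have := E.fin three cube hpow (normrel hp hG hφp hs hn) hne
      (x := SemidirectProduct.inl x) (g := SemidirectProduct.inl g)
      (y := SemidirectProduct.inl y) (h := SemidirectProduct.inl h)
      ⟨x, rfl⟩ ⟨g, rfl⟩ ⟨y, rfl⟩ ⟨h, rfl⟩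
    rw [← map_cj, ← map_cm, ← map_cm, ← map_cj] at this
    exact Commute.of_map SemidirectProduct.inl_injective this
  · -- `p = 2` or `p = 3`
    have h23 : p = 2 ∨ p = 3 := by
      have := hp.two_le
      have h4 : p ≠ 4 := by rintro rfl; revert hp; decide
      omega
    have hcc : ∀ g : G, Commute g (φ g) := by
      intro g
      rcases h23 with rfl | rfl
      · have := hs g
        simp [List.range_succ] at this
        rw [eq_inv_of_mul_eq_one_right this]
        exact (Commute.refl g).inv_right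
      · have h1 := hs g
        have h2 := hs g⁻¹
        simp [List.range_succ] at h1 h2
        have e1 : (φ ^ 2) g = (g * φ g)⁻¹ := by
          apply eq_inv_of_mul_eq_one_right
          rw [← h1]; group
        have e2 : (φ ^ 2) g = (φ g * g)⁻¹ := by
          have h3 : ((φ ^ 2) g)⁻¹ = (g⁻¹ * (φ g)⁻¹)⁻¹ := by
            apply eq_inv_of_mul_eq_one_right
            rw [← h2]; group
          have h4 := inv_injective h3
          rw [h4]; group
        exact inv_injective (e1.symm.trans e2)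
    have h1 := Ab.central p hG φ hs hcc x⁻¹ (cj x g)⁻¹ y
    rw [inv_inv, inv_inv] at h1
    have h2 : cm (cm x (cj x g)) y = 1 := cm_of h1
    rw [h2]
    exact Commute.one_left _

end H81.SC
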