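import Pool.Agent.H81.SC.Fac

/-!
# Quadruples: weight four is central, and the relation
-/

namespace H81.SC

variable {Γ : Type*} [Group Γ] {N : Subgroup Γ}

namespace Env

variable (E : Env N)
include E

/-- `[a,[x,b,c]]` is central in `⟨x,a,b,c⟩`. -/
theorem rcen {x a b c : Γ} (hx : x ∈ N) (xa : Cr N x a) (xb : Cr N x b) (xc : Cr N x c)
    (ab : Cr N a b) (ac : Cr N a c) (bc : Cr N b c)
    (Fx : Commute (cm x a) (cm (cm x b) c)) (Fb : Commute (cm b a) (cm (cm b x) c)) :
    Commute (cm a (cm (cm x b) c)) x ∧ Commute (cm a (cm (cm x b) c)) a ∧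
    Commute (cm a (cm (cm x b) c)) b ∧ Commute (cm a (cm (cm x b) c)) c := by
  have ha : a ∈ N := xa.mem E.normal hx
  have hb : b ∈ N := xb.mem E.normal hx
  have hc : c ∈ N := xc.mem E.normal hx
  set n := cm x b with hn
  set r := cm n c with hr
  obtain ⟨rx, rb, rc⟩ := E.K hx xb xc bc
  rw [← hn, ← hr] at rx rb rc
  have zx := E.pair hx xa
  have bap := E.pair hb ab.symm
  have cap := E.pair hc ac.symm
  -- `x`
  have gx : Commute (cm a r) x := by
    have h1 : Commute (cj x a⁻¹) r := by
      rw [cj_inv_of zx.2]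
      exact rx.symm.mul_left Fx.inv_left
    have h2 : Commute x (cj r a) := by
      have := comm_cj h1 a
      rwa [cj_inv_cj] at this
    rw [cm_eq' a r]
    exact (h2.inv_right.mul_right rx.symm).symm
  -- `b`
  have Fb' : Commute (cm b a) r := by
    rw [E.swap hx xb xc, ← hn, ← hr] at Fb
    simpa using Fb.inv_right
  have gb : Commute (cm a r) b := by
    have h1 : Commute (cj b a⁻¹) r := by
      rw [cj_inv_of bap.2]
      exact rb.symm.mul_left Fb'.inv_left
    have h2 : Commute b (cj r a) := by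
      have := comm_cj h1 a
      rwa [cj_inv_cj] at this
    rw [cm_eq' a r]
    exact (h2.inv_right.mul_right rb.symm).symm
  -- `c`
  have Fc : Commute (cm c a) r := by
    have h := (E.T' hc xc.symm xb ac.symm).inv_left
    rw [cm_inv, ← hn, ← hr] at h
    exact h.symm
  have gc : Commute (cm a r) c := by
    have h1 : Commute (cj c a⁻¹) r := by
      rw [cj_inv_of cap.2]
      exact rc.symm.mul_left Fc.inv_left
    have h2 : Commute c (cj r a) := by
      have := comm_cj h1 a
      rwa [cj_inv_cj] at this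
    rw [cm_eq' a r]
    exact (h2.inv_right.mul_right rc.symm).symm
  refine ⟨gx, ?_, gb, gc⟩
  -- `a`
  set a1 := cm a r with ha1
  set Q := cm a c with hQ
  set v := cm a n with hv
  obtain ⟨Kx, Kb, Ka⟩ := E.K hx xb xa ab.symm
  have hvi : v = (cm (cm x b) a)⁻¹ := by rw [cm_inv]
  have vx : Commute v x := by rw [hvi]; exact Kx.inv_left
  have vb : Commute v b := by rw [hvi]; exact Kb.inv_left
  have va : Commute v a := by rw [hvi]; exact Ka.inv_left
  have vn : Commute v n := (cm_comm vx.symm vb.symm).symm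
  have vQ : Commute v Q := E.T' ha xa.symm xb ac
  have nr : Commute n r := cm_comm rx.symm rb.symm
  have n1 : Commute n a1 := cm_comm gx.symm gb.symm
  have acp := E.pair ha ac
  have Qr : Commute Q r := by
    have := Fc.inv_left
    rwa [cm_inv] at this
  have wr : Commute (cm n Q) r := cm_comm nr Qr
  have aw : Commute a (cm n Q) := by
    rw [cm_eq' n Q]
    have h1 : Commute (cj a n⁻¹) Q := by
      rw [cj_inv_of (x := a) (y := n) vn]
      exact acp.1.symm.mul_left vQ.inv_left
    have h2 : Commute a (cj Q n) := by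
      have := comm_cj h1 n
      rwa [cj_inv_cj] at this
    exact h2.inv_right.mul_right acp.1.symm
  have e0 : cj (cj a c) (n * r) = cj (cj a n) c := by
    rw [cj_cj, cj_cj, hr]; congr 1; unfold cm; group
  have eL : cj (cj a c) (n * r) = cj (a * v) r * Q * (cm n Q)⁻¹ := by
    rw [cj_eq a c, ← hQ, ← cj_cj, cj_mul, cj_eq a n, ← hv, cj_eq Q n, ← cm_inv n Q,
      cj_mul (a * v), cj_mul Q, cj_of Qr, cj_inv, cj_of wr, mul_assoc]
  have eR : cj (cj a n) c = a * Q * cj v c := by
    rw [cj_eq a n, ← hv, cj_mul, cj_eq a c]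
  have e1 : cj (a * v) r = a * Q * cj v c * cm n Q * Q⁻¹ := by
    have : cj (a * v) r = cj (a * v) r * Q * (cm n Q)⁻¹ * cm n Q * Q⁻¹ := by group
    rw [this, ← eL, e0, eR]
  have avc : Commute a (cj v c) := by
    have h1 : Commute (cj a c⁻¹) v := by
      rw [cj_inv_of acp.2]
      exact va.symm.mul_left vQ.symm.inv_left
    have := comm_cj h1 c
    rwa [cj_inv_cj] at this
  have aL : Commute a (cj (a * v) r) := by
    rw [e1]
    exact (((((Commute.refl a).mul_right acp.1.symm).mul_right avc).mul_right aw).mul_right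
      acp.1.symm.inv_right)
  have e2 : cj (a * v) r = a * v * a1 := by
    have h1 : cj v r = a1⁻¹ * v * a1 := by
      rw [hv, cj_cm, cj_of nr, cj_eq a r, ← ha1, cm_eq, cj_mul, cj_eq a n, ← hv,
        cj_of n1.symm]
      group
    rw [cj_mul, h1, cj_eq a r, ← ha1]
    group
  rw [e2] at aL
  have h3 : Commute a (a * v) := (Commute.refl a).mul_right va.symm
  have h4 := h3.inv_right.mul_right aL
  have h5 : (a * v)⁻¹ * (a * v * a1) = a1 := by group
  rw [h5] at h4
  exact h4.symm

end Env

/-- pure algebra: from the law to `[a,g][x,h] = 1` -/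
theorem rel0 {x a g h : Γ} (law : Commute (x * a) (x * g * (a * h)))
    (xg : Commute x g) (zg : Commute (cm x a) g) (zh : Commute (cm x a) h)
    (za : Commute (cm x a) a) (ze : Commute (cm x a) (cm x h))
    (ah : Commute a h) (eh : Commute (cm x h) h) :
    cm a g * cm x h = 1 := by
  set z := cm x a with hz
  set η := cm x h with hη
  have ax : a * x = x * a * z⁻¹ := by rw [hz]; unfold cm; group
  have hxe : h * x = x * h * η⁻¹ := by rw [hη]; unfold cm; group
  have zi : ∀ y, Commute z y → z⁻¹ * y = y * z⁻¹ := fun y hy => hy.inv_left.eq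
  have e1 : x * x * (a * g * a * h * z⁻¹) = x * x * (g * a * h * η⁻¹ * a * z⁻¹) := by
    calc x * x * (a * g * a * h * z⁻¹)
        = x * (x * (a * (g * (a * (h * z⁻¹))))) := by group
      _ = x * (x * (a * (z⁻¹ * (g * (a * h))))) := by
          rw [← zi h zh, ← mul_assoc a z⁻¹ h, ← zi a za, mul_assoc z⁻¹ a h,
            ← mul_assoc g z⁻¹, ← zi g zg, mul_assoc z⁻¹ g]
      _ = x * (x * a * z⁻¹) * (g * (a * h)) := by group
      _ = x * a * (x * g * (a * h)) := by rw [← ax]; group
      _ = x * g * (a * h) * (x * a) := law.eq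
      _ = x * g * a * (h * x) * a := by group
      _ = x * g * a * (x * h * η⁻¹) * a := by rw [hxe]
      _ = x * g * (a * x) * (h * η⁻¹ * a) := by group
      _ = x * g * (x * a * z⁻¹) * (h * η⁻¹ * a) := by rw [ax]
      _ = x * (g * x) * (a * (z⁻¹ * (h * η⁻¹ * a))) := by group
      _ = x * (x * g) * (a * ((h * η⁻¹ * a) * z⁻¹)) := by
          rw [← xg.eq, zi _ ((zh.mul_right ze.inv_right).mul_right za)]
      _ = _ := by group
  have e2 := mul_right_cancel (mul_left_cancel e1)
  -- a g a h = g a h η⁻¹ a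
  have e3 : a * g * (a * h) = g * a * η⁻¹ * (a * h) := by
    calc a * g * (a * h) = a * g * a * h := by group
      _ = g * a * h * η⁻¹ * a := e2
      _ = g * a * ((h * η⁻¹) * a) := by group
      _ = g * a * ((η⁻¹ * h) * a) := by rw [eh.inv_left.eq]
      _ = g * a * (η⁻¹ * (h * a)) := by group
      _ = g * a * (η⁻¹ * (a * h)) := by rw [ah.eq]
      _ = _ := by group
  have e4 := mul_right_cancel e3
  have e5 : cm a g = η⁻¹ := by
    unfold cm
    calc a⁻¹ * g⁻¹ * a * g = a⁻¹ * g⁻¹ * (a * g) := by group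
      _ = a⁻¹ * g⁻¹ * (g * a * η⁻¹) := by rw [e4]
      _ = _ := by group
  rw [e5, inv_mul_cancel]

namespace Env

variable (E : Env N)
include E

/-- The relation coming from the law for `x a` and its conjugate `b c`. -/
theorem rel {x a b c : Γ} (hx : x ∈ N) (xa : Cr N x a) (xb : Cr N x b) (xc : Cr N x c)
    (ab : Cr N a b) (ac : Cr N a c) (bc : Cr N b c)
    (law : Commute (x * a) (cj (x * a) (b * c)))
    (Fx : Commute (cm x a) (cm (cm x b) c)) (Fa : Commute (cm a x) (cm (cm a b) c))
    (Fb : Commute (cm b a) (cm (cm b x) c)) :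
    (cm a (cm x b) * cm x (cm a b)) *
      (cm a (cm (cm x b) c) * cm a (cm x c) * cm x (cm (cm a b) c) * cm x (cm a c)) = 1 := by
  have ha : a ∈ N := xa.mem E.normal hx
  have hb : b ∈ N := xb.mem E.normal hx
  have hc : c ∈ N := xc.mem E.normal hx
  obtain ⟨fx1, fx2, fx3, fx4, fx5, fx6⟩ := E.six hx xa xb xc ab ac bc Fx
  obtain ⟨fa1, fa2, fa3, fa4, fa5, fa6⟩ := E.six ha xa.symm ab ac xb xc bc Fa
  obtain ⟨fb1, fb2, fb3, fb4, fb5, fb6⟩ := E.six hb ab.symm xb.symm bc xa.symm ac xc Fb
  obtain ⟨a1x, a1a, a1b, a1c⟩ := E.rcen hx xa xb xc ab ac bc Fx Fb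
  obtain ⟨x1a, x1x, x1b, x1c⟩ := E.rcen ha xa.symm ab ac xb xc bc Fa fb3
  have zp := E.pair hx xa
  have np := E.pair hx xb
  have Pp := E.pair hx xc
  have Wp := E.pair ha ab
  have Qp := E.pair ha ac
  obtain ⟨rx, rb, rc⟩ := E.K hx xb xc bc
  obtain ⟨sa, sb, sc⟩ := E.K ha ab ac bc
  obtain ⟨vx0, vb0, va0⟩ := E.K hx xb xa ab.symm
  obtain ⟨ux0, uc0, ua0⟩ := E.K hx xc xa ac.symm
  obtain ⟨wa0, wb0, wx0⟩ := E.K ha ab xa.symm xb.symm
  obtain ⟨qa0, qc0, qx0⟩ := E.K ha ac xa.symm xc.symm
  have zn : Commute (cm x a) (cm x b) := E.T1 hx xa xb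
  have zP : Commute (cm x a) (cm x c) := E.T1 hx xa xc
  have zW : Commute (cm x a) (cm a b) := by
    have := (E.T1 ha xa.symm ab).inv_left
    rwa [cm_inv] at this
  have zQ : Commute (cm x a) (cm a c) := by
    have := (E.T1 ha xa.symm ac).inv_left
    rwa [cm_inv] at this
  have nP : Commute (cm x b) (cm x c) := E.T1 hx xb xc
  have WQ : Commute (cm a b) (cm a c) := E.T1 ha ab ac
  -- F-type facts
  have uN : Commute (cm a (cm x c)) (cm x b) := by
    rw [← cm_inv (cm x c) a]; exact fx4.symm.inv_left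
  have vP : Commute (cm a (cm x b)) (cm x c) := by
    rw [← cm_inv (cm x b) a]; exact fx6.symm.inv_left
  have qW : Commute (cm x (cm a c)) (cm a b) := by
    rw [← cm_inv (cm a c) x]; exact fa4.symm.inv_left
  have wQ : Commute (cm x (cm a b)) (cm a c) := by
    rw [← cm_inv (cm a b) x]; exact fa6.symm.inv_left
  have zs : Commute (cm x a) (cm (cm a b) c) := by
    have := fa1.inv_left
    rwa [cm_inv] at this
  have uW : Commute (cm a (cm x c)) (cm a b) := E.T' ha xa.symm xc ab
  have vQ : Commute (cm a (cm x b)) (cm a c) := E.T' ha xa.symm xb ac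
  set z := cm x a with hz
  set n := cm x b with hn
  set P := cm x c with hP
  set W := cm a b with hW
  set Q := cm a c with hQ
  set r := cm n c with hr
  set s := cm W c with hs
  set a1 := cm a r with ha1
  set x1 := cm x s with hx1
  set v := cm a n with hv
  set u := cm a P with hu
  set w := cm x W with hw
  set q := cm x Q with hq
  have hvi : v = (cm n a)⁻¹ := by rw [cm_inv]
  have hui : u = (cm P a)⁻¹ := by rw [cm_inv]
  have hwi : w = (cm W x)⁻¹ := by rw [cm_inv]
  have hqi : q = (cm Q x)⁻¹ := by rw [cm_inv]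
  have vx : Commute v x := by rw [hvi]; exact vx0.inv_left
  have vb : Commute v b := by rw [hvi]; exact vb0.inv_left
  have va : Commute v a := by rw [hvi]; exact va0.inv_left
  have ux : Commute u x := by rw [hui]; exact ux0.inv_left
  have uc : Commute u c := by rw [hui]; exact uc0.inv_left
  have ua : Commute u a := by rw [hui]; exact ua0.inv_left
  have wx : Commute w x := by rw [hwi]; exact wx0.inv_left
  have wb : Commute w b := by rw [hwi]; exact wb0.inv_left
  have wa : Commute w a := by rw [hwi]; exact wa0.inv_left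
  have qx : Commute q x := by rw [hqi]; exact qx0.inv_left
  have qc : Commute q c := by rw [hqi]; exact qc0.inv_left
  have qa : Commute q a := by rw [hqi]; exact qa0.inv_left
  -- central elements
  have cen4 : ∀ g y t : Γ, Commute g y → Commute g t → Commute g (cm y t) :=
    fun g y t h1 h2 => comm_cm h1 h2
  have a1n : Commute a1 n := cen4 _ _ _ a1x a1b
  have a1P : Commute a1 P := cen4 _ _ _ a1x a1c
  have a1W : Commute a1 W := cen4 _ _ _ a1a a1b
  have a1Q : Commute a1 Q := cen4 _ _ _ a1a a1c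
  have a1z : Commute a1 z := cen4 _ _ _ a1x a1a
  have x1n : Commute x1 n := cen4 _ _ _ x1x x1b
  have x1P : Commute x1 P := cen4 _ _ _ x1x x1c
  have x1W : Commute x1 W := cen4 _ _ _ x1a x1b
  have x1Q : Commute x1 Q := cen4 _ _ _ x1a x1c
  have x1z : Commute x1 z := cen4 _ _ _ x1x x1a
  have nr : Commute n r := cm_comm rx.symm rb.symm
  have Pr : Commute P r := cm_comm rx.symm rc.symm
  have Ws : Commute W s := cm_comm sa.symm sb.symm
  have Qs : Commute Q s := cm_comm sa.symm sc.symm
  -- `r` commutes with `v`, `u`; `s` with `w`, `q`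
  have vr : Commute v r := by
    apply cj_eq_iff.1
    rw [hv, cj_cm, cj_of nr, cj_eq a r, ← ha1, cm_mul_left, cm_of a1n, mul_one,
      cj_of (cm_comm a1a.symm a1n.symm)]
  have ur : Commute u r := by
    apply cj_eq_iff.1
    rw [hu, cj_cm, cj_of Pr, cj_eq a r, ← ha1, cm_mul_left, cm_of a1P, mul_one,
      cj_of (cm_comm a1a.symm a1P.symm)]
  have ws : Commute w s := by
    apply cj_eq_iff.1
    rw [hw, cj_cm, cj_of Ws, cj_eq x s, ← hx1, cm_mul_left, cm_of x1W, mul_one,
      cj_of (cm_comm x1x.symm x1W.symm)]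
  have qs : Commute q s := by
    apply cj_eq_iff.1
    rw [hq, cj_cm, cj_of Qs, cj_eq x s, ← hx1, cm_mul_left, cm_of x1Q, mul_one,
      cj_of (cm_comm x1x.symm x1Q.symm)]
  -- the conjugates
  have ex : cj x (b * c) = x * (P * n * r) := by
    rw [← cj_cj, cj_eq x b, ← hn, cj_mul, cj_eq x c, cj_eq n c, ← hP, ← hr]; group
  have ea : cj a (b * c) = a * (Q * W * s) := by
    rw [← cj_cj, cj_eq a b, ← hW, cj_mul, cj_eq a c, cj_eq W c, ← hQ, ← hs]; group
  have cg : cm a (P * n * r) = a1 * (v * u) := by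
    have h1 : cj a (P * n * r) = a * (a1 * (v * u)) := by
      rw [← cj_cj, ← cj_cj, cj_eq a P, ← hu, cj_mul, cj_of uN, cj_eq a n, ← hv, cj_mul, cj_mul,
        cj_of ur, cj_of vr, cj_eq a r, ← ha1]
      group
    rw [cm_eq, h1]; group
  have ch : cm x (Q * W * s) = x1 * (w * q) := by
    have h1 : cj x (Q * W * s) = x * (x1 * (w * q)) := by
      rw [← cj_cj, ← cj_cj, cj_eq x Q, ← hq, cj_mul, cj_of qW, cj_eq x W, ← hw, cj_mul, cj_mul,
        cj_of qs, cj_of ws, cj_eq x s, ← hx1]
      group
    rw [cm_eq, h1]; group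
  have zw : Commute z w := cm_comm wx.symm wa.symm
  have zq : Commute z q := cm_comm qx.symm qa.symm
  rw [cj_mul, ex, ea] at law
  have hmain : cm a (P * n * r) * cm x (Q * W * s) = 1 := by
    apply rel0 law
    · exact (Pp.1.symm.mul_right np.1.symm).mul_right rx.symm
    · exact (zP.mul_right zn).mul_right Fx
    · exact (zQ.mul_right zW).mul_right zs
    · exact zp.2
    · rw [ch]
      exact x1z.symm.mul_right (zw.mul_right zq)
    · exact (Qp.1.symm.mul_right Wp.1.symm).mul_right sa.symm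
    · rw [ch]
      have x1s : Commute x1 s := cen4 _ _ _ x1W x1c
      have wW : Commute w W := cen4 _ _ _ wa wb
      have qQ : Commute q Q := cen4 _ _ _ qa qc
      have w1 : Commute w (Q * W * s) := (wQ.mul_right wW).mul_right ws
      have q1 : Commute q (Q * W * s) := (qQ.mul_right qW).mul_right qs
      have x11 : Commute x1 (Q * W * s) := (x1Q.mul_right x1W).mul_right x1s
      exact x11.mul_left (w1.mul_left q1)
  rw [cg, ch] at hmain
  -- reorder
  have uw : Commute u w := cen4 _ _ _ ux uW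
  have wx1 : Commute w x1 := (cen4 _ _ _ x1x x1W).symm
  have ux1 : Commute u x1 := (cen4 _ _ _ x1a x1P).symm
  have wa1 : Commute w a1 := (cen4 _ _ _ a1x a1W).symm
  have va1 : Commute v a1 := (cen4 _ _ _ a1a a1n).symm
  calc v * w * (a1 * u * x1 * q) = v * (w * (a1 * u * x1)) * q := by group
    _ = v * ((a1 * u * x1) * w) * q := by rw [((wa1.mul_right uw.symm).mul_right wx1).eq]
    _ = (v * a1) * u * x1 * (w * q) := by group
    _ = (a1 * v) * u * x1 * (w * q) := by rw [va1.eq]
    _ = a1 * (v * u) * (x1 * (w * q)) := by group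
    _ = 1 := hmain

end Env

end H81.SC
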