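import Pool.Agent.H81.SC.Bas

/-!
# The core calculation: `[x,a]` commutes with `[x,b]`
-/

namespace H81.SC

variable {Γ : Type*} [Group Γ]

/-- First half of the calculation: `x, z` commute, `x', z'` are their conjugates. -/
theorem half {x z x' z' : Γ} (hxz : Commute x z) (hxz' : Commute x' z') (hxx : Commute x x')
    (h1 : Commute (x * z) (x' * z')) (h2 : Commute (x * z⁻¹) (x' * z'⁻¹))
    (hs : ∀ y, Commute ((x * x') * (x * x')) y → Commute (x * x') y) :
    Commute z z' ∧ Commute (z⁻¹ * z') (x * x') := by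
  have e1 : z * (x * x') * z' = z' * (x * x') * z := by
    calc z * (x * x') * z' = (z * x) * x' * z' := by group
      _ = (x * z) * (x' * z') := by rw [hxz.eq]; group
      _ = (x' * z') * (x * z) := h1.eq
      _ = (z' * x') * (x * z) := by rw [hxz'.eq]
      _ = z' * (x' * x) * z := by group
      _ = z' * (x * x') * z := by rw [hxx.eq]
  have hxzi : z⁻¹ * x = x * z⁻¹ := (hxz.inv_right).eq.symm
  have hxzi' : z'⁻¹ * x' = x' * z'⁻¹ := (hxz'.inv_right).eq.symm
  have e2 : z⁻¹ * (x * x') * z'⁻¹ = z'⁻¹ * (x * x') * z⁻¹ := by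
    calc z⁻¹ * (x * x') * z'⁻¹ = (z⁻¹ * x) * x' * z'⁻¹ := by group
      _ = (x * z⁻¹) * (x' * z'⁻¹) := by rw [hxzi]; group
      _ = (x' * z'⁻¹) * (x * z⁻¹) := h2.eq
      _ = (z'⁻¹ * x') * (x * z⁻¹) := by rw [hxzi']
      _ = z'⁻¹ * (x' * x) * z⁻¹ := by group
      _ = z'⁻¹ * (x * x') * z⁻¹ := by rw [hxx.eq]
  set s := x * x' with hsdef
  -- `e = z' z⁻¹`
  have f1 : s * (z' * z⁻¹) = z⁻¹ * z' * s := by
    calc s * (z' * z⁻¹) = z⁻¹ * (z * s * z') * z⁻¹ := by group
      _ = z⁻¹ * (z' * s * z) * z⁻¹ := by rw [e1]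
      _ = _ := by group
  have f2 : (z' * z⁻¹) * s = s * (z⁻¹ * z') := by
    calc (z' * z⁻¹) * s = z' * (z⁻¹ * s * z'⁻¹) * z' := by group
      _ = z' * (z'⁻¹ * s * z⁻¹) * z' := by rw [e2]
      _ = _ := by group
  have f3 : Commute (s * s) (z' * z⁻¹) := by
    show s * s * (z' * z⁻¹) = z' * z⁻¹ * (s * s)
    calc s * s * (z' * z⁻¹) = s * (s * (z' * z⁻¹)) := by group
      _ = (s * (z⁻¹ * z')) * s := by rw [f1]; group
      _ = ((z' * z⁻¹) * s) * s := by rw [f2]
      _ = _ := by group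
  have f4 : Commute s (z' * z⁻¹) := hs _ f3
  have f5 : z' * z⁻¹ = z⁻¹ * z' := by
    have : s * (z' * z⁻¹) = s * (z⁻¹ * z') := by rw [f4.eq, f2]
    exact mul_left_cancel this
  have f6 : Commute z' z := by
    have : Commute z' z⁻¹ := f5
    simpa using this.inv_right
  refine ⟨f6.symm, ?_⟩
  rw [← f5]
  exact f4.symm

/-- The core calculation. -/
theorem tcore {x a b : Γ}
    (zx : Commute (cm x a) x) (za : Commute (cm x a) a)
    (nx : Commute (cm x b) x) (nb : Commute (cm x b) b)
    (h1 : Commute (x * cm x a) (cj (x * cm x a) b))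
    (h2 : Commute (x * (cm x a)⁻¹) (cj (x * (cm x a)⁻¹) b))
    (g1 : Commute (x * cm x b) (cj (x * cm x b) a))
    (g2 : Commute (x * (cm x b)⁻¹) (cj (x * (cm x b)⁻¹) a))
    (h4 : Commute (cm (x * cm x a) b) b)
    (hs : ∀ y, Commute ((x * cj x b) * (x * cj x b)) y → Commute (x * cj x b) y)
    (gs : ∀ y, Commute ((x * cj x a) * (x * cj x a)) y → Commute (x * cj x a) y)
    (hk : ∀ y, Commute (cm (cm x a) (cm x b) * cm (cm x a) (cm x b)) y →
      Commute (cm (cm x a) (cm x b)) y)
    (hk1 : cm (cm x a) (cm x b) * cm (cm x a) (cm x b) = 1 → cm (cm x a) (cm x b) = 1) :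
    Commute (cm x a) (cm x b) ∧ Commute (cm (cm x a) b) x ∧ Commute (cm (cm x a) b) b ∧
      Commute (cm x a) (cj (cm x a) b) := by
  have xb : Commute x (cj x b) := comm_cj_self nx
  have xa : Commute x (cj x a) := comm_cj_self zx
  obtain ⟨zz, ts⟩ := half (x := x) (z := cm x a) (x' := cj x b) (z' := cj (cm x a) b)
    zx.symm (comm_cj zx.symm b) xb (by rw [← cj_mul]; exact h1)
    (by rw [← cj_inv, ← cj_mul]; exact h2) hs
  obtain ⟨nn, ts'⟩ := half (x := x) (z := cm x b) (x' := cj x a) (z' := cj (cm x b) a)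
    nx.symm (comm_cj nx.symm a) xa (by rw [← cj_mul]; exact g1)
    (by rw [← cj_inv, ← cj_mul]; exact g2) gs
  rw [← cm_eq] at ts ts'
  set z := cm x a with hz
  set n := cm x b with hn
  set t := cm z b with ht
  set t' := cm n a with ht'
  have xb' : cj x b = x * n := cj_eq x b
  have xa' : cj x a = x * z := cj_eq x a
  have hzb : cj z b = z * t := cj_eq z b
  have hna : cj n a = n * t' := cj_eq n a
  -- `t` commutes with `z`, `t'` with `n`
  have tz : Commute t z := cm_self_of zz
  have tn' : Commute t' n := cm_self_of nn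
  -- `t ^ x = κ t` with `κ = n z⁻¹ n⁻¹ z`
  have key : ∀ (z n t b : Γ), Commute z x → Commute n x → Commute n b → t = cm z b →
      cj x b = x * n → Commute t (x * cj x b) → cj t x = (n * z⁻¹ * n⁻¹ * z) * t := by
    intro z n t b zx nx nb ht xb' ts
    have hzb : cj z b = z * t := by rw [cj_eq, ht]
    have a1 : Commute (cj z b) (x * n) := by rw [← xb']; exact comm_cj zx b
    have a2 : cj t (x * (x * n)) = t := by rw [← xb']; exact cj_of ts
    -- so `cj t x = cj t (x*n)⁻¹`
    have a3 : cj t x = cj t (x * n)⁻¹ := by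
      have : cj (cj t x) (x * n) = t := by rw [cj_cj]; exact a2
      have h : cj (cj (cj t x) (x * n)) (x * n)⁻¹ = cj t (x * n)⁻¹ := by rw [this]
      rwa [cj_cj_inv] at h
    rw [a3]
    have a4 : t = z⁻¹ * cj z b := by rw [hzb]; group
    rw [a4, cj_mul, cj_inv, cj_of a1.inv_right]
    have a5 : cj z (x * n)⁻¹ = n * z * n⁻¹ := by
      have : cj z (x * n)⁻¹ = n * (x * z * x⁻¹) * n⁻¹ := by
        unfold cj
        rw [← nx.eq]; group
      rw [this, ← zx.eq]; group
    rw [a5]; group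
  have ktx := key z n t b zx nx nb rfl xb' ts
  have ktx' := key n z t' a nx zx za rfl xa' ts'
  -- `κ` commutes with `z`
  have k1 : Commute (n * z⁻¹ * n⁻¹ * z) z := by
    have h : Commute (cj t x) z := by
      have := comm_cj tz x
      rwa [cj_of zx] at this
    rw [ktx] at h
    have := h.mul_left tz.inv_left
    simpa using this
  have k2 : Commute (z * n⁻¹ * z⁻¹ * n) n := by
    have h : Commute (cj t' x) n := by
      have := comm_cj tn' x
      rwa [cj_of nx] at this
    rw [ktx'] at h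
    have := h.mul_left tn'.inv_left
    simpa using this
  -- hence `z` commutes with `z ^ n` and `n` with `n ^ z`
  have k3 : Commute (cm z n) z := by
    apply cm_self_of
    have h : Commute (n * z⁻¹ * n⁻¹) z := by
      have := k1.mul_left (Commute.refl z).inv_left
      simpa [mul_assoc] using this
    have h2 := (comm_cj h n).inv_left
    have h3 : (cj (n * z⁻¹ * n⁻¹) n)⁻¹ = z := by unfold cj; group
    rw [h3] at h2
    exact h2
  have k4 : Commute (cm z n) n := by
    have h : Commute (z * n⁻¹ * z⁻¹) n := by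
      have := k2.mul_left (Commute.refl n).inv_left
      simpa [mul_assoc] using this
    have h2 := (comm_cj h z).inv_left
    have h3 : (cj (z * n⁻¹ * z⁻¹) z)⁻¹ = n := by unfold cj; group
    rw [h3] at h2
    have h4 := (cm_self_of h2).inv_left
    rwa [cm_inv] at h4
  set k := cm z n with hkd
  have kx : Commute k x := cm_comm zx nx
  -- κ = k
  have kk : n * z⁻¹ * n⁻¹ * z = k := by
    have h1 : n * z⁻¹ * n⁻¹ * z = cj k n⁻¹ := by
      rw [hkd]; unfold cj cm; group
    rw [h1, cj_of k4.inv_right]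
  rw [kk] at ktx
  -- `t ^ (x*x*n) = t`
  have t2 : cj t n = k⁻¹ * k⁻¹ * t := by
    have a2 : cj t (x * (x * n)) = t := by rw [← xb']; exact cj_of ts
    rw [← cj_cj, ← cj_cj, ktx, cj_mul, cj_of kx, ktx, cj_mul, cj_mul, cj_of k4] at a2
    have : cj t n = k⁻¹ * k⁻¹ * (k * (k * cj t n)) := by group
    rw [this, a2]
  -- `[x z, b] = n k⁻¹ t`
  have h4' : cm (x * z) b = n * (k⁻¹ * t) := by
    rw [cm_eq, cj_mul, xb', hzb, hkd]; unfold cm; group
  have b1 : Commute (k⁻¹ * t) b := by
    rw [h4'] at h4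
    have := nb.inv_left.mul_left h4
    simpa using this
  have b2 : Commute (k⁻¹ * (k⁻¹ * k⁻¹ * t)) b := by
    have := comm_cj b1 n
    rw [cj_mul, cj_inv, cj_of k4, t2, cj_of nb.symm] at this
    exact this
  have b3 : Commute (k * k) b := by
    have h := (b2.mul_left b1.inv_left).inv_left
    have e : (k⁻¹ * (k⁻¹ * k⁻¹ * t) * (k⁻¹ * t)⁻¹)⁻¹ = k * k := by simp [mul_assoc]
    rwa [e] at h
  have kb : Commute k b := hk b b3
  have tb : Commute t b := by
    have := kb.mul_left b1
    simpa using this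
  -- conjugate `t` by `x ^ b` in two ways
  have c1 : cj t (cj x b) = k * t := by
    have : cj t (cj x b) = cj (cj (cj t b⁻¹) x) b := by
      rw [cj_cj, cj_cj]; unfold cj; group
    rw [this, cj_of tb.inv_right, ktx, cj_mul, cj_of kb, cj_of tb]
  have c2 : cj t (cj x b) = k⁻¹ * t := by
    rw [xb', ← cj_cj, ktx, cj_mul, cj_of k4, t2]; group
  have kk1 : k * k = 1 := by
    have : k * t = k⁻¹ * t := c1.symm.trans c2
    have h := mul_right_cancel this
    calc k * k = k * k⁻¹ := by rw [← h]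
      _ = 1 := mul_inv_cancel k
  have k0 : k = 1 := hk1 kk1
  refine ⟨cm_eq_one_iff.1 k0, ?_, tb, zz⟩
  apply cj_eq_iff.1
  rw [ktx, k0, one_mul]

end H81.SC
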